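import Pool.Agent.Helper65.BR.Goals
import Pool.Agent.Helper14.HC.PAR

/-!
# Machines with a memory of blocks: the sizes (SIZ)
-/

namespace Pool.Agent.Helper69.BR

open Pool.Agent.Helper65.LinSpace Pool.Agent.Helper78.Mpc Pool.Agent.Helper28.Ram Finset Filter
open Pool.Agent.Helper65.BR Pool.Agent.Helper65 Pool.Agent.Helper28.Long

/-- SIZ. -/
theorem siz : SIZ_stmt := by
  intro c
  filter_upwards [ev_ll_cube (40 * c + 40), ev_lll_ge (24 * c),
    eventually_ge_atTop (c + 40)] with n h1 h2 h3 S hS H hH Z hZ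
  have hl := ll_pos n
  have hLn : LW n ≤ n := Nat.div_le_self _ _
  have hSn : S ≤ n := hS.trans (ZL_le n)
  have hHn : H ≤ n := hH.trans (ZL_le n)
  have hZn : Z ≤ n := hZ.trans (ZL_le n)
  have hLl : (40 * c + 40) * ll n ≤ LW n := by
    unfold LW
    rw [Nat.le_div_iff_mul_le hl]
    refine le_trans ?_ h1
    calc (40 * c + 40) * ll n * ll n = (40 * c + 40) * (ll n * ll n) := by ring
      _ ≤ (40 * c + 40) * (ll n * ll n * ll n) :=
        Nat.mul_le_mul_left _ (Nat.le_mul_of_pos_right _ hl)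
  have h7 : ZL n * ll (ll n) ≤ LW n := Nat.div_mul_le_self _ _
  have hZL : 24 * c * ZL n ≤ LW n := by
    calc 24 * c * ZL n ≤ ll (ll n) * ZL n := Nat.mul_le_mul_right _ h2
      _ = ZL n * ll (ll n) := Nat.mul_comm _ _
      _ ≤ LW n := h7
  have hcS : c * S ≤ c * ZL n := Nat.mul_le_mul_left _ hS
  have hcH : c * H ≤ c * ZL n := Nat.mul_le_mul_left _ hH
  have hcZ : c * Z ≤ c * ZL n := Nat.mul_le_mul_left _ hZ
  have hZ2 : 24 * (c * ZL n) ≤ LW n := by
    rw [← Nat.mul_assoc]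
    exact hZL
  have hcl : c ≤ c * ll n := Nat.le_mul_of_pos_right _ hl
  have hLl2 : 40 * (c * ll n) + 40 * ll n ≤ LW n := by
    calc 40 * (c * ll n) + 40 * ll n = (40 * c + 40) * ll n := by ring
      _ ≤ LW n := hLl
  have hl2 := lt_two_pow_ll n
  have h8 : (n + 1) * (n + 1) ≤ 2 ^ (2 * ll n) := by
    rw [two_mul, pow_add]
    exact Nat.mul_le_mul hl2 hl2
  have h9 : 40 * n ≤ (n + 1) * (n + 1) := by
    nlinarith
  refine ⟨?_, ?_, fun x hx => ⟨pow_le_CR ?_, pow_le_CR ?_, pow_le_CR ?_⟩⟩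
  · have h10 : c * (4 * (S + Z + H) + 20) = 4 * (c * S) + 4 * (c * Z) + 4 * (c * H) + 20 * c := by
      ring
    omega
  · omega
  · rw [hx]
    omega
  · rw [hx]
    omega
  · rw [hx]
    omega

end Pool.Agent.Helper69.BR
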